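import Pool.Agent.helper69.AD.GS3

/-!
Module ag:CH1 (MP_a29257_gt): the leaves crossed by a closed geodesic, in their order.
-/

open scoped MatrixGroups LinearAlgebra.Projectivization
open Matrix UpperHalfPlane

namespace AdSBend

noncomputable section

open LeafSystem

/-- monotonicity of `Behind` -/
theorem CH1_behind (h4 : BD4_stmt) {p q : Bd × Bd} {c : Bd} (hpq : Inside p q)
    (hc : Behind p c) : Behind q c := by
  obtain ⟨-, hrot, -, -, hfive, -⟩ := h4
  obtain ⟨h1, h2⟩ := hpq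
  unfold Behind at *
  have a1 : Cyc p.1 p.2 q.1 := hrot _ _ _ h1
  have a2 := (hfive _ _ _ _ hc a1).2
  have a3 : Cyc q.1 c p.2 := hrot _ _ _ (hrot _ _ _ a2)
  exact (hfive _ _ _ _ a3 h2).1

/-- a point is not on both sides -/
theorem CH1_not_both (h4 : BD4_stmt) {p : Bd × Bd} {c : Bd} (h : Behind p c)
    (h' : Behind (sw p) c) : False := by
  obtain ⟨-, hrot, hno, -, -, -⟩ := h4
  unfold Behind at *
  exact hno _ _ _ (hrot _ _ _ (hrot _ _ _ h)) h'

/-- the crossed leaves, oriented with the repelling point behind -/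
def CH1_C {Γ : Subgroup SL(2, ℝ)} (S : LeafSystem Γ) (l : Bd × Bd) : Set (Bd × Bd) :=
  {p | p ∈ S.L ∧ Behind p l.2 ∧ Behind (sw p) l.1}

theorem CH1_total (h4 : BD4_stmt) (h12 : BD12_stmt) (p1 : PN1_stmt) {Γ : Subgroup SL(2, ℝ)}
    (hΓ : IsClosedSurfaceGroup Γ) (S : LeafSystem Γ) (l : Bd × Bd) {p q : Bd × Bd}
    (hp : p ∈ CH1_C S l) (hq : q ∈ CH1_C S l) (hne : p ≠ q) : Inside p q ∨ Inside q p := by
  obtain ⟨hpL, hp1, hp2⟩ := hp
  obtain ⟨hqL, hq1, hq2⟩ := hq
  have hsw : q ≠ (p.2, p.1) := by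
    intro h
    subst h
    exact CH1_not_both h4 hp1 hq1
  rcases p1 Γ hΓ S p hpL q hqL (Ne.symm hne) hsw with h | h | h | h
  · exact Or.inl h
  · exact Or.inr h
  · exfalso
    have h' : Inside p (q.2, q.1) := (h12.2.1 p q).1 h
    exact CH1_not_both h4 hq1 (CH1_behind h4 h' hp1)
  · exfalso
    have h' : Inside (p.2, p.1) (q.1, q.2) := (h12.2.1 (p.2, p.1) (q.2, q.1)).1 h
    exact CH1_not_both h4 (p := q) (CH1_behind h4 h' hp2) hq2

theorem CH1_irrefl (h12 : BD12_stmt) (p : Bd × Bd) : ¬ Inside p p :=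
  fun h => h12.2.2.2.2.2.1 p p ⟨h, h⟩

open Classical in
/-- linear order on the crossed leaves -/
def CH1_order (h4 : BD4_stmt) (h12 : BD12_stmt) (p1 : PN1_stmt) {Γ : Subgroup SL(2, ℝ)}
    (hΓ : IsClosedSurfaceGroup Γ) (S : LeafSystem Γ) (l : Bd × Bd) :
    LinearOrder (CH1_C S l) where
  le p q := p = q ∨ Inside p.1 q.1
  lt p q := Inside p.1 q.1
  le_refl p := Or.inl rfl
  le_trans p q r := by
    rintro (rfl | h) (rfl | h')
    · exact Or.inl rfl
    · exact Or.inr h'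
    · exact Or.inr h
    · exact Or.inr (h12.2.2.2.1 _ _ _ h h')
  lt_iff_le_not_ge p q := by
    constructor
    · intro h
      refine ⟨Or.inr h, ?_⟩
      rintro (rfl | h')
      · exact CH1_irrefl h12 _ h
      · exact h12.2.2.2.2.2.1 _ _ ⟨h, h'⟩
    · rintro ⟨h | h, h'⟩
      · exact absurd (Or.inl h.symm) h'
      · exact h
  le_antisymm p q := by
    rintro (rfl | h) (h' | h')
    · rfl
    · rfl
    · exact h'.symm
    · exact absurd ⟨h, h'⟩ (h12.2.2.2.2.2.1 _ _)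
  le_total p q := by
    by_cases hpq : p = q
    · exact Or.inl (Or.inl hpq)
    · rcases CH1_total h4 h12 p1 hΓ S l p.2 q.2 (fun h => hpq (Subtype.ext h)) with h | h
      · exact Or.inl (Or.inr h)
      · exact Or.inr (Or.inr h)
  toDecidableLE := Classical.decRel _

/-- CH1 -/
theorem CH1 (h2 : BD2_stmt) (h4 : BD4_stmt) (h12 : BD12_stmt) (g1 : GM1_stmt) (g5 : GM5_stmt)
    (p1 : PN1_stmt) : CH1_stmt := by
  intro Γ hΓ S l hl ⟨p₀, hp₀L, hlink⟩
  set g := gen Γ l with hg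
  have hgen : IsGen Γ l g := g1 Γ hΓ l hl
  obtain ⟨hgΓ, ⟨hne, hg1, hg2, hpush⟩, -⟩ := hgen
  have hnonempty : (CH1_C S l).Nonempty := by
    obtain ⟨-, hrot, -, -, hfive, -⟩ := h4
    rcases hlink with ⟨ha, hb⟩ | ⟨ha, hb⟩
    · have h := hfive _ _ _ _ ha hb
      exact ⟨p₀, hp₀L, h.2, hrot _ _ _ (hrot _ _ _ h.1)⟩
    · have h := hfive _ _ _ _ ha hb
      exact ⟨(p₀.2, p₀.1), S.swap _ hp₀L, h.2, hrot _ _ _ (hrot _ _ _ h.1)⟩
  -- the action of `g`
  have hmap : ∀ γ ∈ Γ, γ • l.1 = l.1 → γ • l.2 = l.2 → ∀ p ∈ CH1_C S l, ga γ p ∈ CH1_C S l := by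
    intro γ hγ e1 e2 p hp
    obtain ⟨hpL, hp1, hp2⟩ := hp
    refine ⟨S.inv γ hγ p hpL, ?_, ?_⟩
    · have := (h2 γ p.1 l.2 p.2).2 hp1
      rw [e2] at this
      exact this
    · have := (h2 γ p.2 l.1 p.1).2 hp2
      rw [e1] at this
      exact this
  have hgi1 : g⁻¹ • l.1 = l.1 := by rw [inv_smul_eq_iff, hg1]
  have hgi2 : g⁻¹ • l.2 = l.2 := by rw [inv_smul_eq_iff, hg2]
  letI : LinearOrder (CH1_C S l) := CH1_order h4 h12 p1 hΓ S l
  have hlt : ∀ p q : CH1_C S l, p < q ↔ Inside p.1 q.1 := fun p q => Iff.rfl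
  have hle : ∀ p q : CH1_C S l, p ≤ q ↔ (p = q ∨ Inside p.1 q.1) := fun p q => Iff.rfl
  haveI : Nonempty (CH1_C S l) := hnonempty.to_subtype
  -- `g` as an order isomorphism
  let G : CH1_C S l ≃o CH1_C S l :=
    { toFun := fun p => ⟨ga g p.1, hmap g hgΓ hg1 hg2 p.1 p.2⟩
      invFun := fun p => ⟨ga g⁻¹ p.1, hmap g⁻¹ (inv_mem hgΓ) hgi1 hgi2 p.1 p.2⟩
      left_inv := fun p => Subtype.ext (by simp [ga])
      right_inv := fun p => Subtype.ext (by simp [ga])
      map_rel_iff' := by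
        intro p q
        rw [hle, hle]
        refine or_congr ?_ ?_
        · constructor
          · intro h
            have := congrArg (fun x : CH1_C S l => ga g⁻¹ x.1) h
            apply Subtype.ext
            simpa [ga] using this
          · rintro rfl
            rfl
        · exact and_congr (h2 _ _ _ _) (h2 _ _ _ _) }
  have hGlt : ∀ p : CH1_C S l, p < G p := by
    intro p
    have hp := p.2
    obtain ⟨hpL, hp1, hp2⟩ := hp
    -- `p.2` is moved
    have c1 : Cyc l.2 p.1.2 l.1 := by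
      obtain ⟨-, hrot, -, -, hfive, -⟩ := h4
      -- Cyc p.1 l.2 p.2, Cyc p.2 l.1 p.1
      unfold Behind at hp1 hp2
      have a1 : Cyc p.1.1 p.1.2 l.1 := hrot _ _ _ (hrot _ _ _ hp2)
      exact (hfive _ _ _ _ hp1 a1).2
    have c2 := hpush _ c1
    have hpg : p ≠ G p := by
      intro h
      have e : g • p.1.2 = p.1.2 := (congrArg (fun x : CH1_C S l => x.1.2) h).symm
      rw [e] at c2
      exact (h4.1 _ _ _ c2).2.1 rfl
    rcases lt_or_gt_of_ne hpg with h | h
    · exact h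
    · exfalso
      have h' : Inside (ga g p.1) p.1 := h
      have hb : Behind (ga g p.1) l.2 := (hmap g hgΓ hg1 hg2 p.1 p.2).2.1
      obtain ⟨-, hrot, hno, -, hfive, -⟩ := h4
      obtain ⟨i1, i2⟩ := h'
      unfold Behind at hb
      simp only [ga] at i1 i2 hb
      -- order p.1, g p.1, l.2, g p.2, p.2
      have b1 : Cyc (g • p.1.1) (g • p.1.2) p.1.1 := hrot _ _ _ i1
      have b2 : Cyc l.2 (g • p.1.2) p.1.1 := (hfive _ _ _ _ hb b1).2
      -- Cyc p.1 l.2 (g p.2)
      have b3 : Cyc p.1.1 l.2 (g • p.1.2) := hrot _ _ _ (hrot _ _ _ b2)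
      have b4 : Cyc l.2 (g • p.1.2) p.1.2 := (hfive _ _ _ _ b3 i2).2
      exact hno _ _ _ c2 b4
  haveI : NoMaxOrder (CH1_C S l) := ⟨fun p => ⟨G p, hGlt p⟩⟩
  haveI : NoMinOrder (CH1_C S l) := ⟨fun p => ⟨G.symm p, by
    have := hGlt (G.symm p)
    rwa [OrderIso.apply_symm_apply] at this⟩⟩
  have hfin : ∀ a b : CH1_C S l, (Set.Icc a b).Finite := by
    intro a b
    have hfin := (g5 Γ hΓ S).2.2 a.1 b.1
      (by intro h; have := a.2.2.1; unfold Behind at this; rw [h] at this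
          exact (h4.1 _ _ _ this).2.2 rfl)
      (by intro h; have := b.2.2.1; unfold Behind at this; rw [h] at this
          exact (h4.1 _ _ _ this).2.2 rfl)
    have h1 : (Set.Ioo a b).Finite := by
      refine Set.Finite.of_finite_image (f := Subtype.val) (hfin.subset ?_)
        (Subtype.val_injective.injOn)
      rintro _ ⟨x, ⟨hx1, hx2⟩, rfl⟩
      exact ⟨x.2.1, hx1, hx2⟩
    refine ((h1.insert a).insert b).subset ?_
    intro x hx
    rcases eq_or_lt_of_le hx.1 with h | h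
    · subst h; simp
    · rcases eq_or_lt_of_le hx.2 with h' | h'
      · subst h'; simp
      · exact Or.inr (Or.inr ⟨h, h'⟩)
  letI : LocallyFiniteOrder (CH1_C S l) := LocallyFiniteOrder.ofFiniteIcc hfin
  letI : SuccOrder (CH1_C S l) := LinearLocallyFiniteOrder.succOrder _
  letI : PredOrder (CH1_C S l) := LinearLocallyFiniteOrder.predOrder _
  let e : CH1_C S l ≃o ℤ := orderIsoIntOfLinearSuccPredArch
  -- translation
  let τ : ℤ ≃o ℤ := (e.symm.trans G).trans e
  have hτ1 : ∀ i : ℤ, τ (i + 1) = τ i + 1 := by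
    intro i
    have := OrderIso.map_succ τ i
    simpa using this
  have hτ : ∀ i : ℤ, τ i = i + τ 0 := by
    intro i
    induction i using Int.induction_on with
    | zero => simp
    | succ i ih => rw [hτ1, ih]; ring
    | pred i ih =>
      have := hτ1 (-(i : ℤ) - 1)
      rw [sub_add_cancel, ih] at this
      linarith
  have hτ0 : 0 < τ 0 := by
    have h : e (e.symm 0) < e (G (e.symm 0)) := e.strictMono (hGlt _)
    rw [OrderIso.apply_symm_apply] at h
    exact h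
  obtain ⟨n, hn⟩ : ∃ n : ℕ, τ 0 = n + 1 := ⟨(τ 0 - 1).toNat, by omega⟩
  refine ⟨n, fun i => (e.symm i).1, fun i => (e.symm i).2, ?_, ?_, ?_, ?_⟩
  · intro i
    have hlt1 : Inside (e.symm i).1 (e.symm (i + 1)).1 := e.symm.strictMono (by omega)
    refine ⟨(e.symm i).2.1, S.swap _ (e.symm (i + 1)).2.1, (h12.2.1 _ _).2 hlt1, ?_⟩
    intro r hr hir hrf
    have hri : Inside r (e.symm (i + 1)).1 := (h12.2.1 r (sw (e.symm (i + 1)).1)).1 hrf
    have hrC : r ∈ CH1_C S l := by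
      refine ⟨hr, CH1_behind h4 hir (e.symm i).2.2.1, ?_⟩
      exact CH1_behind h4 ((h12.2.2.1 _ _).1 hri) (e.symm (i + 1)).2.2.2
    have k1 : e.symm i < ⟨r, hrC⟩ := hir
    have k2 : (⟨r, hrC⟩ : CH1_C S l) < e.symm (i + 1) := hri
    have k1' := e.strictMono k1
    have k2' := e.strictMono k2
    rw [OrderIso.apply_symm_apply] at k1' k2'
    omega
  · intro i j hij
    exact e.symm.strictMono hij
  · intro i
    have h : e.symm (i + n + 1) = G (e.symm i) := by
      rw [OrderIso.symm_apply_eq]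
      have : τ i = e (G (e.symm i)) := rfl
      rw [← this, hτ i, hn]
      ring
    exact congrArg Subtype.val h
  · intro p hp hb1 hb2
    exact ⟨e ⟨p, hp, hb1, hb2⟩, by simp⟩

end

end AdSBend
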