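import Pool.Agent.helper69.AD.GS5

/-!
Module ag:FB4 (MP_a29257_gt): length and twist coordinates of admissible representations.
-/

open scoped MatrixGroups LinearAlgebra.Projectivization
open Matrix UpperHalfPlane
open Pool.Agent.helper73.AD (PS Arc Word sg AData Family PreFamily Cone bs)

namespace AdSBend

noncomputable section

open LeafSystem

/-! ### PEq -/

theorem FB4_refl (a : SL(2, ℝ)) : PEq a a := Or.inl rfl

theorem FB4_symm {a b : SL(2, ℝ)} (h : PEq a b) : PEq b a := by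
  rcases h with h | h
  · exact Or.inl h.symm
  · exact Or.inr (by rw [h, neg_neg])

theorem FB4_trans {a b c : SL(2, ℝ)} (h : PEq a b) (h' : PEq b c) : PEq a c := by
  rcases h with rfl | rfl <;> rcases h' with rfl | rfl
  · exact Or.inl rfl
  · exact Or.inr rfl
  · exact Or.inr rfl
  · exact Or.inl (neg_neg _)

theorem FB4_mul {a b c d : SL(2, ℝ)} (h : PEq a b) (h' : PEq c d) : PEq (a * c) (b * d) := by
  rcases h with rfl | rfl <;> rcases h' with rfl | rfl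
  · exact Or.inl rfl
  · exact Or.inr (by rw [mul_neg])
  · exact Or.inr (by rw [neg_mul])
  · exact Or.inl (by rw [neg_mul_neg])

theorem FB4_inv {a b : SL(2, ℝ)} (h : PEq a b) : PEq a⁻¹ b⁻¹ := by
  rcases h with rfl | rfl
  · exact Or.inl rfl
  · exact Or.inr (by
      apply inv_eq_of_mul_eq_one_right
      rw [neg_mul_neg, mul_inv_cancel])

theorem FB4_trc_neg (a : SL(2, ℝ)) : trc (-a) = -trc a := by
  unfold trc
  have : (-a : SL(2, ℝ)).1 = -a.1 := rfl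
  rw [this, Matrix.neg_apply, Matrix.neg_apply]
  ring

theorem FB4_trc_mul (a b : SL(2, ℝ)) : trc (a * b) = trc (b * a) := by
  unfold trc
  have h1 : (a * b : SL(2, ℝ)).1 = a.1 * b.1 := rfl
  have h2 : (b * a : SL(2, ℝ)).1 = b.1 * a.1 := rfl
  rw [h1, h2]
  simp only [Matrix.mul_apply, Fin.sum_univ_two]
  ring

theorem FB4_trc_conj (g a : SL(2, ℝ)) : trc (g * a * g⁻¹) = trc a := by
  rw [FB4_trc_mul, ← mul_assoc, inv_mul_cancel, one_mul]

theorem FB4_trc_abs {a b : SL(2, ℝ)} (h : PEq a b) : |trc a| = |trc b| := by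
  rcases h with rfl | rfl
  · rfl
  · rw [FB4_trc_neg, abs_neg]

/-! ### commuting with a translation -/

theorem FB4_comm {X : SL(2, ℝ)} {L : ℝ} (hL : 0 < L) (h : X * Dm L = Dm L * X) :
    ∃ t : ℝ, PEq X (Dm t) := by
  have hv : X.1 * (Dm L).1 = (Dm L).1 * X.1 := congrArg Subtype.val h
  have hD : (Dm L).1 = !![Real.exp (L / 2), 0; 0, Real.exp (-(L / 2))] := rfl
  have h01 := congrFun (congrFun hv 0) 1
  have h10 := congrFun (congrFun hv 1) 0
  rw [hD] at h01 h10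
  simp [Matrix.mul_apply, Fin.sum_univ_two] at h01 h10
  have hlt : Real.exp (-(L / 2)) < Real.exp (L / 2) := Real.exp_lt_exp.2 (by linarith)
  have e01 : X.1 0 1 = 0 := by
    have : X.1 0 1 * (Real.exp (L / 2) - Real.exp (-(L / 2))) = 0 := by linarith
    rcases mul_eq_zero.1 this with h | h
    · exact h
    · linarith
  have e10 : X.1 1 0 = 0 := by
    have : X.1 1 0 * (Real.exp (L / 2) - Real.exp (-(L / 2))) = 0 := by linarith
    rcases mul_eq_zero.1 this with h | h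
    · exact h
    · linarith
  have hdet : X.1 0 0 * X.1 1 1 = 1 := by
    have := X.2
    rw [Matrix.det_fin_two, e01, e10] at this
    linarith
  have hne : X.1 0 0 ≠ 0 := by
    intro h
    rw [h] at hdet
    norm_num at hdet
  have key : ∀ Y : SL(2, ℝ), Y.1 0 1 = 0 → Y.1 1 0 = 0 → Y.1 0 0 * Y.1 1 1 = 1 → 0 < Y.1 0 0 →
      Y = Dm (2 * Real.log (Y.1 0 0)) := by
    intro Y h1 h2 h3 h4
    apply Subtype.ext
    have hD : (Dm (2 * Real.log (Y.1 0 0))).1 =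
      !![Real.exp (2 * Real.log (Y.1 0 0) / 2), 0; 0,
        Real.exp (-(2 * Real.log (Y.1 0 0) / 2))] := rfl
    rw [hD]
    have e1 : Real.exp (2 * Real.log (Y.1 0 0) / 2) = Y.1 0 0 := by
      rw [mul_div_cancel_left₀ _ (by norm_num : (2 : ℝ) ≠ 0), Real.exp_log h4]
    have e2 : Real.exp (-(2 * Real.log (Y.1 0 0) / 2)) = Y.1 1 1 := by
      rw [Real.exp_neg, e1]
      field_simp
      linarith
    rw [e1, e2]
    ext i j
    fin_cases i <;> fin_cases j <;> simp [h1, h2]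
  rcases lt_or_gt_of_ne hne with hneg | hpos
  · refine ⟨2 * Real.log ((-X : SL(2, ℝ)).1 0 0), Or.inr ?_⟩
    have := key (-X) (by show -(X.1 0 1) = 0; rw [e01, neg_zero])
      (by show -(X.1 1 0) = 0; rw [e10, neg_zero])
      (by show -(X.1 0 0) * -(X.1 1 1) = 1; rw [neg_mul_neg, hdet])
      (by show 0 < -(X.1 0 0); linarith)
    rw [← this, neg_neg]
  · exact ⟨2 * Real.log (X.1 0 0), Or.inl (key X e01 e10 hdet hpos)⟩

theorem FB4_Dm_inj {s t : ℝ} (h : PEq (Dm s) (Dm t)) : s = t := by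
  have hs : (Dm s).1 0 0 = Real.exp (s / 2) := rfl
  have ht : (Dm t).1 0 0 = Real.exp (t / 2) := rfl
  rcases h with h | h
  · have := congrArg (fun x : SL(2, ℝ) => x.1 0 0) h
    simp only [hs, ht] at this
    have := Real.exp_injective this
    linarith
  · have h2 := congrArg (fun x : SL(2, ℝ) => x.1 0 0) h
    have h3 : (-Dm t : SL(2, ℝ)).1 0 0 = -Real.exp (t / 2) := rfl
    simp only [hs, h3] at h2
    have := Real.exp_pos (s / 2)
    have := Real.exp_pos (t / 2)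
    linarith

/-! ### seam frames on both sides -/

theorem FB4_twist (a0 : FA0_stmt) (a1 : FA1_stmt) {a b x y F G : SL(2, ℝ)}
    (ha : 2 < |trc a|) (hab : PEq b a⁻¹) (hF : IsSeamFrame a x F) (hG : IsSeamFrame b y G) :
    ∃ t : ℝ, PEq F (G * Rm * Dm t) := by
  obtain ⟨d, -, hFa, -⟩ := hF
  obtain ⟨d', -, hGb, -⟩ := hG
  obtain ⟨-, -, -, -, -, a6⟩ := a1
  obtain ⟨-, hleni, -, -, hposi, -, hlen⟩ := a6 a 1 ha
  have hai : 2 < |trc a⁻¹| := by
    have : trc a⁻¹ = trc a := by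
      unfold trc
      have h1 : (a⁻¹ : SL(2, ℝ)).1 = a.1.adjugate := rfl
      rw [h1, Matrix.adjugate_fin_two]
      simp
      ring
    rw [this]
    exact ha
  obtain ⟨-, -, hlenn, -, -, hposn, -⟩ := a6 a⁻¹ 1 hai
  -- pos b = (pos a)⁻¹, len b = len a
  have hpb : pos b = (pos a)⁻¹ ∧ len b = len a := by
    rcases hab with rfl | rfl
    · exact ⟨hposi, hleni⟩
    · exact ⟨by rw [hposn, hposi], by rw [hlenn, hleni]⟩
  obtain ⟨-, -, hDinv, -, -, -, hRR, hRinv, hRD, -⟩ := a0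
  have e1 : pos a = G * Dm (-len a) * G⁻¹ := by
    have := congrArg (fun z : SL(2, ℝ) => z⁻¹) hGb
    simp only [hpb.1, hpb.2, inv_inv] at this
    rw [this, ← hDinv]
    group
  have e2 : Rm * Dm (len a) * Rm⁻¹ = Dm (-len a) := by
    rw [hRD, mul_assoc, mul_inv_cancel, mul_one]
  have e3 : F * Dm (len a) * F⁻¹ = (G * Rm) * Dm (len a) * (G * Rm)⁻¹ := by
    rw [← hFa, e1, ← e2]
    group
  have e4 : ((G * Rm)⁻¹ * F) * Dm (len a) = Dm (len a) * ((G * Rm)⁻¹ * F) := by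
    have e5 : F * Dm (len a) = (G * Rm) * Dm (len a) * (G * Rm)⁻¹ * F := by
      rw [← e3, inv_mul_cancel_right]
    rw [mul_assoc, e5]
    group
  obtain ⟨t, ht⟩ := FB4_comm hlen e4
  refine ⟨t, ?_⟩
  have := FB4_mul (FB4_refl (G * Rm)) ht
  rwa [mul_inv_cancel_left] at this

theorem FB4_sw {Γ : Subgroup SL(2, ℝ)} (hΓ : IsClosedSurfaceGroup Γ) (g1 : GM1_stmt)
    (g2 : GM2_stmt) (S : LeafSystem Γ) {r : SL(2, ℝ) → SL(2, ℝ)} (hr : IsPRep Γ r)
    {p : Bd × Bd} (hp : p ∈ S.L) : PEq (r (gen Γ (sw p))) (r (gen Γ p))⁻¹ := by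
  have h1 : gen Γ p ∈ Γ := (g1 Γ hΓ p (S.closed p hp)).1
  have h2 : gen Γ (sw p) ∈ Γ := (g1 Γ hΓ (sw p) (S.closed (sw p) (S.swap p hp))).1
  have h3 : PEq (gen Γ (sw p)) (gen Γ p)⁻¹ := (g2 Γ hΓ).2.2 p (S.closed p hp)
  have h4 : PEq 1 (gen Γ (sw p) * gen Γ p) := by
    have := FB4_mul h3 (FB4_refl (gen Γ p))
    rw [inv_mul_cancel] at this
    exact FB4_symm this
  have h5 := hr _ h2 _ h1 _ (one_mem Γ) h4
  have h6 := hr _ (one_mem Γ) _ (one_mem Γ) _ (one_mem Γ) (by rw [mul_one]; exact FB4_refl 1)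
  have h7 : PEq 1 (r 1) := by
    have := FB4_mul h6 (FB4_refl (r 1)⁻¹)
    rwa [mul_inv_cancel, mul_inv_cancel_right] at this
  have h8 : PEq 1 (r (gen Γ (sw p)) * r (gen Γ p)) := FB4_trans h7 h5
  have h9 := FB4_mul h8 (FB4_refl (r (gen Γ p))⁻¹)
  rw [one_mul, mul_inv_cancel_right] at h9
  exact FB4_symm h9

theorem FB4 (g1 : GM1_stmt) (g2 : GM2_stmt) (a0 : FA0_stmt) (a1 : FA1_stmt) (b1 : FB1_stmt) :
    FB4_stmt := by
  intro Γ hΓ S J D r hr
  obtain ⟨hex, huniq, hequi, hhex, hlen⟩ := b1 Γ hΓ S r hr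
  obtain ⟨⟨hrep, htrc, hneg⟩, hseam⟩ := hr
  have hgΓ : ∀ p ∈ S.L, gen Γ p ∈ Γ := fun p hp => (g1 Γ hΓ p (S.closed p hp)).1
  refine ⟨?_, ?_, ?_, ?_⟩
  · -- existence
    have hex2 : ∀ j, ∃ t : ℝ, ∀ F G, IsSeamFrame (r (gen Γ (D.P j))) (r (gen Γ (D.U j))) F →
        IsSeamFrame (r (gen Γ (sw (D.P j)))) (r (gen Γ (D.V j))) G → PEq F (G * Rm * Dm t) := by
      intro j
      obtain ⟨F, hF⟩ := hex _ _ (D.seamU j)
      obtain ⟨G, hG⟩ := hex _ _ (D.seamV j)
      obtain ⟨t, ht⟩ := FB4_twist a0 a1 (htrc _ (D.memP j))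
        (FB4_sw hΓ g1 g2 S hrep (D.memP j)) hF hG
      refine ⟨t, fun F' G' hF' hG' => ?_⟩
      have k1 : PEq F' F := huniq _ _ _ _ (D.seamU j) hF hF'
      have k2 : PEq G' G := huniq _ _ _ _ (D.seamV j) hG hG'
      exact FB4_trans k1 (FB4_trans ht
        (FB4_mul (FB4_mul (FB4_symm k2) (FB4_refl _)) (FB4_refl _)))
    choose t ht using hex2
    exact ⟨(fun j => len (r (gen Γ (D.P j))), t), fun j => rfl, fun j F G => ht j F G⟩
  · -- uniqueness
    intro z z' hz hz'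
    refine Prod.ext (funext fun j => ?_) (funext fun j => ?_)
    · rw [hz.1 j, hz'.1 j]
    · obtain ⟨F, hF⟩ := hex _ _ (D.seamU j)
      obtain ⟨G, hG⟩ := hex _ _ (D.seamV j)
      have k1 := hz.2 j F G hF hG
      have k2 := hz'.2 j F G hF hG
      have k3 : PEq (G * Rm * Dm (z'.2 j)) (G * Rm * Dm (z.2 j)) := FB4_trans (FB4_symm k2) k1
      have k4 := FB4_mul (FB4_refl (G * Rm)⁻¹) k3
      rw [inv_mul_cancel_left, inv_mul_cancel_left] at k4
      exact FB4_Dm_inj k4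
  · -- positivity and all leaves
    intro z hz
    refine ⟨fun j => ?_, ?_⟩
    · rw [hz.1 j]
      exact (hlen _ (D.memP j)).1
    · intro p hp
      rw [hz.1]
      obtain ⟨γ, hγ, h | h⟩ := D.cls_inj (D.P (D.cls p)) (D.memP _) p hp (D.clsP _)
      · have := (hlen _ (D.memP (D.cls p))).2.2 γ hγ
        rw [← h] at this
        exact this.symm
      · have h1 := (hlen _ (S.swap _ (D.memP (D.cls p)))).2.2 γ hγ
        have h2 := (hlen _ (D.memP (D.cls p))).2.1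
        rw [← h] at h1
        rw [h1]
        exact h2.symm
  · -- conjugation
    intro r' g z hr' hz
    have htrc' : ∀ p ∈ S.L, 2 < |trc (r' (gen Γ p))| := by
      intro p hp
      rw [FB4_trc_abs (hr' _ (hgΓ p hp)), FB4_trc_conj]
      exact htrc p hp
    obtain ⟨a_uniq, a_peq, a_conj, -, -, a6⟩ := a1
    have hpos : ∀ p ∈ S.L, pos (r' (gen Γ p)) = g * pos (r (gen Γ p)) * g⁻¹ ∧
        len (r' (gen Γ p)) = len (r (gen Γ p)) := by
      intro p hp
      obtain ⟨c1, -, -, c4, -, -, -⟩ := a6 (r (gen Γ p)) g (htrc p hp)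
      have hc : 2 < |trc (g * r (gen Γ p) * g⁻¹)| := by
        rw [FB4_trc_conj]; exact htrc p hp
      obtain ⟨-, -, c3, -, -, c6, -⟩ := a6 (g * r (gen Γ p) * g⁻¹) 1 hc
      rcases hr' _ (hgΓ p hp) with h | h
      · rw [h]; exact ⟨c4, c1⟩
      · rw [h]; exact ⟨by rw [c6, c4], by rw [c3, c1]⟩
    have hback : ∀ γ ∈ Γ, PEq (g⁻¹ * r' γ * g⁻¹⁻¹) (r γ) := by
      intro γ hγ
      have := FB4_mul (FB4_mul (FB4_refl g⁻¹) (hr' γ hγ)) (FB4_refl g)
      rw [inv_inv]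
      refine FB4_trans this (Or.inl ?_)
      group
    have hmem : ∀ p u, S.Seam p u → p ∈ S.L ∧ u ∈ S.L := by
      rintro p u ⟨s, h | h⟩
      · exact ⟨h.1.1, h.1.2.1⟩
      · exact ⟨h.1.2.1, h.1.1⟩
    refine ⟨⟨⟨?_, htrc', ?_⟩, ?_⟩, ?_, ?_⟩
    · intro γ hγ δ hδ ε hε h
      have k := hrep γ hγ δ hδ ε hε h
      have k1 := FB4_mul (FB4_mul (FB4_refl g) k) (FB4_refl g⁻¹)
      have k2 := FB4_symm (FB4_mul (hr' γ hγ) (hr' δ hδ))
      refine FB4_trans (hr' ε hε) (FB4_trans k1 (FB4_trans (Or.inl ?_) k2))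
      group
    · intro p q s h
      have hpL : p ∈ S.L := h.1.1
      have hqL : q ∈ S.L := h.1.2.1
      rw [(hpos p hpL).1, (hpos q hqL).1]
      have e : g * pos (r (gen Γ p)) * g⁻¹ * (g * pos (r (gen Γ q)) * g⁻¹) =
        g * (pos (r (gen Γ p)) * pos (r (gen Γ q))) * g⁻¹ := by group
      rw [e, FB4_trc_conj]
      exact hneg p q s h
    · intro p q s h
      have hpL : p ∈ S.L := h.1.1
      have hqL : q ∈ S.L := h.1.2.1
      obtain ⟨F, hF⟩ := hseam p q s h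
      have k1 := a_conj _ _ _ g hF
      refine ⟨g * F, a_peq _ _ _ _ _ _ ?_ ?_ (hr' _ (hgΓ p hpL)) (hr' _ (hgΓ q hqL))
        (FB4_refl _) k1⟩
      · rw [FB4_trc_conj]; exact htrc p hpL
      · rw [FB4_trc_conj]; exact htrc q hqL
    · intro j
      rw [hz.1 j, (hpos _ (D.memP j)).2]
    · intro j F G hF hG
      have m1 := hmem _ _ (D.seamU j)
      have m2 := hmem _ _ (D.seamV j)
      have t1 : ∀ p ∈ S.L, 2 < |trc (g⁻¹ * r' (gen Γ p) * g⁻¹⁻¹)| := by
        intro p hp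
        rw [FB4_trc_conj]
        exact htrc' p hp
      have k1 := a_peq _ _ _ _ _ _ (t1 _ m1.1) (t1 _ m1.2) (FB4_symm (hback _ (hgΓ _ m1.1)))
        (FB4_symm (hback _ (hgΓ _ m1.2))) (FB4_refl _) (a_conj _ _ _ g⁻¹ hF)
      have k2 := a_peq _ _ _ _ _ _ (t1 _ m2.1) (t1 _ m2.2) (FB4_symm (hback _ (hgΓ _ m2.1)))
        (FB4_symm (hback _ (hgΓ _ m2.2))) (FB4_refl _) (a_conj _ _ _ g⁻¹ hG)
      have k3 := hz.2 j _ _ k1 k2
      have k4 := FB4_mul (FB4_refl g) k3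
      rw [mul_inv_cancel_left] at k4
      refine FB4_trans k4 (Or.inl ?_)
      group

end

end AdSBend
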